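import Pool.Agent.X164.AR.Ehr

/-!
MP_edc851_co, Q1: for every arbor `τ` of size `n ≥ 1` the `h^*`-polynomial of the arbor polytope is
`∑_{w ∈ 𝒲_τ} t^(n-1-des w)`.  (`n = N + 1`.)

All definitions are in `Pool/Agent/X164/AR/Def.lean`.
-/

namespace Pool.Agent.Results.MP_edc851_co.ArborIdentity

open Polynomial X164.Arb

lemma ser (N d : ℕ) (hd : d ≤ N) :
    (1 - PowerSeries.X) ^ (N + 2) * PowerSeries.mk (fun m : ℕ => ((m + 1 + d).choose (N + 1) : ℤ)) =
      PowerSeries.X ^ (N - d) := by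
  have h1 : PowerSeries.mk (fun m : ℕ => ((m + 1 + d).choose (N + 1) : ℤ)) =
      PowerSeries.X ^ (N - d) * (PowerSeries.mk (1 : ℕ → ℤ)) ^ (N + 1 + 1) := by
    rw [PowerSeries.mk_one_pow_eq_mk_choose_add]
    ext a
    rw [PowerSeries.coeff_X_pow_mul', PowerSeries.coeff_mk]
    split_ifs with h
    · rw [PowerSeries.coeff_mk]
      congr 2; omega
    · rw [Nat.choose_eq_zero_of_lt (by omega)]; simp
  rw [h1, mul_left_comm, ← mul_pow, mul_comm (1 - PowerSeries.X) _, PowerSeries.mk_one_mul_one_sub_eq_one]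
  simp

/-- For every arbor `τ` of size `n = N + 1`: `∑_m Ehr(𝒬_τ, m) t^m · (1-t)^(n+1) = ∑_{w ∈ 𝒲_τ} t^(n-1-des w)`. -/
theorem result (N : ℕ) (τ : Arbor (N + 1)) :
    (1 - PowerSeries.X) ^ (N + 1 + 1) * PowerSeries.mk (fun m : ℕ => (ehr τ.Q m : ℤ)) =
      ((∑ w ∈ τ.W, X ^ (N - desc w) : ℤ[X]) : PowerSeries ℤ) := by
  have h1 : PowerSeries.mk (fun m : ℕ => (ehr τ.Q m : ℤ)) =
      ∑ w ∈ τ.W, PowerSeries.mk (fun m : ℕ => ((m + 1 + des w).choose (N + 1) : ℤ)) := by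
    ext m
    rw [PowerSeries.coeff_mk, ehr_words, map_sum]
    simp only [PowerSeries.coeff_mk]
  rw [h1, Finset.mul_sum, ← Polynomial.coeToPowerSeries.ringHom_apply, map_sum]
  apply Finset.sum_congr rfl
  intro w _
  have hd : des w ≤ N := by
    unfold des
    calc _ ≤ (Finset.univ : Finset (Fin N)).card := Finset.card_filter_le _ _
      _ = N := by simp
  rw [ser N (des w) hd, map_pow]
  simp only [Polynomial.coeToPowerSeries.ringHom_apply, Polynomial.coe_X]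
  rfl

end Pool.Agent.Results.MP_edc851_co.ArborIdentity
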